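import Mathlib.Data.Set.Finite.Basic
import Mathlib.Data.Set.Finite.Lattice
import Mathlib.Data.Set.Finite.Range
import Mathlib.Data.Nat.Log
import Mathlib.Data.Fintype.Pigeonhole
import Mathlib.Tactic

namespace Pool.Agent.Results.MP_c55a01_nt.SignNotAutomatic

/-- The `k`-kernel of a sequence. -/
def kernel (k : ℕ) (a : ℕ → ℤ) : Set (ℕ → ℤ) :=
  {b | ∃ e j : ℕ, j < k ^ e ∧ b = fun n => a (k ^ e * n + j)}

/-- `a` is `k`-automatic: it takes finitely many values and has a finite `k`-kernel. -/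
def IsAutomatic (k : ℕ) (a : ℕ → ℤ) : Prop :=
  (Set.range a).Finite ∧ (kernel k a).Finite

/-- The recurrence of the problem: `r 0 = 0`, `r 1 = 1`, `r n = a n * r (n-1) + r (n-2)`. -/
def r (a : ℕ → ℤ) : ℕ → ℤ
  | 0 => 0
  | 1 => 1
  | (n + 2) => a (n + 2) * r a (n + 1) + r a n

/-! ### A criterion for not being automatic -/

/-- If the sequence `σ` has, for every `e`, an aligned block `[k^e n, k^e (n+1))`, `n ≥ 1`, on
which it is constantly `c`, but for each fixed `n ≥ 1` this fails for all large `e`, then the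
`k`-kernel of `σ` is infinite (or `σ` takes infinitely many values). -/
theorem not_automatic (k : ℕ) (σ : ℕ → ℤ) (c : ℤ)
    (H1 : ∀ e : ℕ, ∃ n : ℕ, 1 ≤ n ∧ ∀ j < k ^ e, σ (k ^ e * n + j) = c)
    (H2 : ∀ n : ℕ, 1 ≤ n → ∃ E : ℕ, ∀ e, E ≤ e → ∃ j < k ^ e, σ (k ^ e * n + j) ≠ c) :
    ¬ IsAutomatic k σ := by
  rintro ⟨hfin, hker⟩
  choose N hN1 hN using H1
  have : Finite (kernel k σ) := hker.to_subtype
  have : Finite (Set.range σ) := hfin.to_subtype
  -- the class of `n`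
  have hmem : ∀ (u : kernel k σ) (n : ℕ), u.1 n ∈ Set.range σ := by
    rintro ⟨u, e, j, _, rfl⟩ n
    exact ⟨_, rfl⟩
  let V : ℕ → (kernel k σ → Set.range σ) := fun n u => ⟨u.1 n, hmem u n⟩
  have : Finite (kernel k σ → Set.range σ) := inferInstance
  obtain ⟨v, hv⟩ := Finite.exists_infinite_fiber (fun e : ℕ => V (N e))
  rw [Set.infinite_coe_iff] at hv
  obtain ⟨e0, he0⟩ := hv.nonempty
  obtain ⟨E, hE⟩ := H2 (N e0) (hN1 e0)
  obtain ⟨e, he, heE⟩ := hv.exists_gt E
  obtain ⟨j, hj, hne⟩ := hE e heE.le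
  apply hne
  have h1 : V (N e0) = V (N e) := by
    have h3 : V (N e0) = v := he0
    have h4 : V (N e) = v := he
    rw [h3, h4]
  have h2 := congrArg Subtype.val
    (congrFun h1 ⟨fun n => σ (k ^ e * n + j), e, j, hj, rfl⟩)
  have h5 : σ (k ^ e * N e0 + j) = σ (k ^ e * N e + j) := h2
  rw [h5]
  exact hN e j hj

/-! ### The partial sums -/

/-- The offset `m - 2^K` where `2^K ≤ m < 2^(K+1)`. -/
def off (m : ℕ) : ℕ := m - 2 ^ Nat.log 2 m

/-- The partial sums: `S (2^K + i) = K + 1 - min i (2^K - 1 - i)`, `0 ≤ i < 2^K`. -/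
def S (m : ℕ) : ℤ :=
  if m = 0 then 0 else (Nat.log 2 m : ℤ) + 1 - min (off m : ℤ) ((2 : ℤ) ^ Nat.log 2 m - 1 - off m)

theorem S_zero : S 0 = 0 := by simp [S]

theorem log_pow_add {K i : ℕ} (hi : i < 2 ^ K) : Nat.log 2 (2 ^ K + i) = K := by
  apply Nat.log_eq_of_pow_le_of_lt_pow
  · omega
  · rw [pow_succ]; omega

theorem off_pow_add {K i : ℕ} (hi : i < 2 ^ K) : off (2 ^ K + i) = i := by
  rw [off, log_pow_add hi]; omega

theorem S_pow_add {K i : ℕ} (hi : i < 2 ^ K) :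
    S (2 ^ K + i) = (K : ℤ) + 1 - min (i : ℤ) ((2 : ℤ) ^ K - 1 - i) := by
  have : 2 ^ K + i ≠ 0 := by positivity
  rw [S, if_neg this, log_pow_add hi, off_pow_add hi]

theorem exists_repr {m : ℕ} (hm : m ≠ 0) : ∃ K i : ℕ, i < 2 ^ K ∧ m = 2 ^ K + i := by
  refine ⟨Nat.log 2 m, m - 2 ^ Nat.log 2 m, ?_, ?_⟩
  · have h1 := Nat.lt_pow_succ_log_self (b := 2) (by norm_num) m
    have h2 := Nat.pow_log_le_self 2 hm
    rw [Nat.succ_eq_add_one, pow_succ] at h1
    omega
  · have h2 := Nat.pow_log_le_self 2 hm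
    omega

/-- The increments of the partial sums. -/
def eps (m : ℕ) : ℤ :=
  if off m = 0 then 1 else if 2 * off m < 2 ^ Nat.log 2 m then -1
    else if 2 * off m = 2 ^ Nat.log 2 m then 0 else 1

theorem eps_pow_add {K i : ℕ} (hi : i < 2 ^ K) :
    eps (2 ^ K + i) = if i = 0 then 1 else if 2 * i < 2 ^ K then -1
      else if 2 * i = 2 ^ K then 0 else 1 := by
  rw [eps, log_pow_add hi, off_pow_add hi]

theorem S_succ (m : ℕ) : S (m + 1) = S m + eps (m + 1) := by
  obtain ⟨K, i, hi, hm⟩ := exists_repr (Nat.succ_ne_zero m)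
  rw [Nat.succ_eq_add_one] at hm
  rw [hm, S_pow_add hi, eps_pow_add hi]
  rcases Nat.eq_zero_or_pos i with rfl | hipos
  · rcases Nat.eq_zero_or_pos K with rfl | hK
    · have : m = 0 := by simpa using hm
      rw [this, S_zero]; norm_num
    · obtain ⟨L, rfl⟩ : ∃ L, K = L + 1 := ⟨K - 1, by omega⟩
      have hp : 1 ≤ 2 ^ L := Nat.one_le_two_pow
      have hm' : m = 2 ^ L + (2 ^ L - 1) := by rw [pow_succ] at hm; omega
      rw [hm', S_pow_add (by omega)]
      have hc : ((2 ^ L - 1 : ℕ) : ℤ) = (2 : ℤ) ^ L - 1 := by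
        push_cast [Nat.cast_sub hp]; ring
      rw [hc]
      have hp' : (1 : ℤ) ≤ 2 ^ L := by exact_mod_cast hp
      have h2 : (2 : ℤ) ^ (L + 1) = 2 * 2 ^ L := by ring
      have e1 : min (((0 : ℕ) : ℤ)) ((2 : ℤ) ^ (L + 1) - 1 - ((0 : ℕ) : ℤ)) = 0 := by
        rw [min_eq_left (by push_cast; linarith)]; rfl
      have e2 : min ((2 : ℤ) ^ L - 1) ((2 : ℤ) ^ L - 1 - ((2 : ℤ) ^ L - 1)) = 0 := by
        rw [min_eq_right (by linarith)]; ring
      rw [e1, e2]
      simp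
  · obtain ⟨i', rfl⟩ : ∃ i', i = i' + 1 := ⟨i - 1, by omega⟩
    have hm' : m = 2 ^ K + i' := by omega
    rw [hm', S_pow_add (by omega), if_neg (by omega)]
    have hi' : ((i' : ℤ) + 1 < 2 ^ K) := by exact_mod_cast hi
    push_cast
    split_ifs with h1 h2
    · have h1' : 2 * ((i' : ℤ) + 1) < 2 ^ K := by exact_mod_cast h1
      rw [min_eq_left (by linarith), min_eq_left (by linarith)]; ring
    · have h2' : 2 * ((i' : ℤ) + 1) = 2 ^ K := by exact_mod_cast h2
      rw [min_eq_right (by linarith), min_eq_left (by linarith)]; linarith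
    · have h3 : 2 ^ K < 2 * (i' + 1) := by omega
      have h3' : (2 : ℤ) ^ K < 2 * ((i' : ℤ) + 1) := by exact_mod_cast h3
      have h4 : (2 : ℤ) ^ K + 1 ≤ 2 * ((i' : ℤ) + 1) := by linarith
      rw [min_eq_right (by linarith), min_eq_right (by linarith)]; ring

/-! ### The coefficient sequence -/

/-- The coefficient sequence: zero at odd indices, the increments `eps m` at `2m`. -/
def coef (n : ℕ) : ℤ := if n % 2 = 1 then 0 else eps (n / 2)

theorem r_coef (m : ℕ) : r coef (2 * m) = S m ∧ r coef (2 * m + 1) = 1 := by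
  induction m with
  | zero => simp [r, S_zero]
  | succ m ih =>
    have h1 : r coef (2 * (m + 1)) = S (m + 1) := by
      have : 2 * (m + 1) = 2 * m + 2 := by ring
      rw [this, r, ih.1, ih.2, S_succ]
      have hc : coef (2 * m + 2) = eps (m + 1) := by
        rw [coef, if_neg (by omega)]
        congr 1
        omega
      rw [hc]; ring
    refine ⟨h1, ?_⟩
    have : 2 * (m + 1) + 1 = (2 * m + 1) + 2 := by ring
    rw [this, r, ih.2]
    have hc : coef (2 * m + 1 + 2) = 0 := by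
      rw [coef, if_pos (by omega)]
    rw [hc]; ring

theorem eps_values (m : ℕ) : eps m ∈ ({-1, 0, 1} : Set ℤ) := by
  unfold eps; split_ifs <;> simp

/-- Kernel elements of `eps` on arguments `n ≥ 2`. -/
theorem eps_kernel {e n j : ℕ} (hj : j < 2 ^ e) (hn : 2 ≤ n) :
    eps (2 ^ e * n + j) =
      if off n = 0 ∧ j = 0 then 1 else if 2 * off n < 2 ^ Nat.log 2 n then -1
        else if 2 * off n = 2 ^ Nat.log 2 n ∧ j = 0 then 0 else 1 := by
  obtain ⟨K, i, hi, rfl⟩ := exists_repr (show n ≠ 0 by omega)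
  have hK : 1 ≤ K := by
    rcases Nat.eq_zero_or_pos K with rfl | h
    · simp at hi; omega
    · exact h
  obtain ⟨L, rfl⟩ : ∃ L, K = L + 1 := ⟨K - 1, by omega⟩
  have he : 1 ≤ 2 ^ e := Nat.one_le_two_pow
  have hlt : 2 ^ e * i + j < 2 ^ (e + (L + 1)) := by
    rw [pow_add]
    calc 2 ^ e * i + j < 2 ^ e * i + 2 ^ e := by omega
      _ = 2 ^ e * (i + 1) := by ring
      _ ≤ 2 ^ e * 2 ^ (L + 1) := Nat.mul_le_mul_left _ (by omega)
  have hrw : 2 ^ e * (2 ^ (L + 1) + i) + j = 2 ^ (e + (L + 1)) + (2 ^ e * i + j) := by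
    rw [pow_add]; ring
  rw [hrw, eps_pow_add hlt, off_pow_add hi, log_pow_add hi]
  have hpL : 2 ^ (L + 1) = 2 * 2 ^ L := by ring
  have hpe : 2 ^ (e + (L + 1)) = 2 * (2 ^ e * 2 ^ L) := by rw [pow_add, hpL]; ring
  rw [hpe, hpL]
  have hzero : (2 ^ e * i + j = 0) ↔ (i = 0 ∧ j = 0) := by
    constructor
    · intro h
      have h1 : 2 ^ e * i = 0 := by omega
      rcases Nat.mul_eq_zero.mp h1 with h2 | h2
      · omega
      · exact ⟨h2, by omega⟩
    · rintro ⟨rfl, rfl⟩; simp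
  have hlt2 : (2 * (2 ^ e * i + j) < 2 * (2 ^ e * 2 ^ L)) ↔ (2 * i < 2 * 2 ^ L) := by
    constructor
    · intro h
      by_contra hcon
      have h1 : 2 ^ L ≤ i := by omega
      have h2 : 2 ^ e * 2 ^ L ≤ 2 ^ e * i := Nat.mul_le_mul_left _ h1
      omega
    · intro h
      have h1 : i + 1 ≤ 2 ^ L := by omega
      have h2 : 2 ^ e * (i + 1) ≤ 2 ^ e * 2 ^ L := Nat.mul_le_mul_left _ h1
      rw [mul_add, mul_one] at h2
      omega
  have heq2 : (2 * (2 ^ e * i + j) = 2 * (2 ^ e * 2 ^ L)) ↔ (2 * i = 2 * 2 ^ L ∧ j = 0) := by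
    constructor
    · intro h
      have hnl : ¬ (2 * i < 2 * 2 ^ L) := fun h' => by
        have := hlt2.mpr h'
        omega
      have h1 : 2 ^ L ≤ i := by omega
      have h2 : 2 ^ e * 2 ^ L ≤ 2 ^ e * i := Nat.mul_le_mul_left _ h1
      have h3 : j = 0 := by omega
      have h4 : 2 ^ e * i = 2 ^ e * 2 ^ L := by omega
      have h5 : i = 2 ^ L := Nat.eq_of_mul_eq_mul_left (by omega) h4
      exact ⟨by omega, h3⟩
    · rintro ⟨h1, rfl⟩
      have : i = 2 ^ L := by omega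
      rw [this]; ring
  simp only [hzero, hlt2, heq2]

theorem eps_kernel_finite : (kernel 2 eps).Finite := by
  classical
  let F : ({-1, 0, 1} : Set ℤ) × ({-1, 0, 1} : Set ℤ) × Bool → (ℕ → ℤ) := fun x n =>
    if n = 0 then x.1.1 else if n = 1 then x.2.1.1 else
      if off n = 0 ∧ x.2.2 = true then 1 else if 2 * off n < 2 ^ Nat.log 2 n then -1
        else if 2 * off n = 2 ^ Nat.log 2 n ∧ x.2.2 = true then 0 else 1
  have : Finite ({-1, 0, 1} : Set ℤ) := (Set.toFinite _)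
  refine (Set.finite_range F).subset ?_
  rintro b ⟨e, j, hj, rfl⟩
  refine ⟨⟨⟨eps j, eps_values j⟩, ⟨eps (2 ^ e + j), eps_values _⟩, decide (j = 0)⟩, ?_⟩
  funext n
  simp only [F]
  split_ifs with h0 h1 h2 h3 h4
  · subst h0; simp
  · subst h1; simp
  all_goals
    rw [eps_kernel hj (by omega)]
    simp only [decide_eq_true_eq] at h2
  · rw [if_pos h2]
  · rw [if_neg h2, if_pos h3]
  · simp only [decide_eq_true_eq] at h4
    rw [if_neg h2, if_neg h3, if_pos h4]
  · simp only [decide_eq_true_eq] at h4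
    rw [if_neg h2, if_neg h3, if_neg h4]

theorem coef_automatic : IsAutomatic 2 coef := by
  constructor
  · refine (Set.toFinite ({-1, 0, 1} : Set ℤ)).subset ?_
    rintro _ ⟨n, rfl⟩
    unfold coef
    split_ifs
    · simp
    · exact eps_values _
  · refine ((eps_kernel_finite.union (Set.finite_singleton (fun _ : ℕ => (0 : ℤ)))).union
      (Set.finite_singleton coef)).subset ?_
    rintro b ⟨e, j, hj, rfl⟩
    rcases e with _ | e
    · right
      simp only [pow_zero, Nat.lt_one_iff] at hj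
      subst hj
      simp
    · left
      rcases Nat.even_or_odd' j with ⟨i, rfl | rfl⟩
      · left
        refine ⟨e, i, by rw [pow_succ] at hj; omega, ?_⟩
        funext n
        have h1 : 2 ^ (e + 1) * n + 2 * i = 2 * (2 ^ e * n + i) := by rw [pow_succ]; ring
        rw [h1, coef, if_neg (by omega)]
        congr 1
        omega
      · right
        funext n
        have h1 : 2 ^ (e + 1) * n + (2 * i + 1) = 2 * (2 ^ e * n + i) + 1 := by
          rw [pow_succ]; ring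
        rw [h1, coef, if_pos (by omega)]

/-! ### Signs of the recurrence -/

theorem S_pos {K m : ℕ} (hK : K < 2 ^ K) (h1 : 2 ^ (K + 1) ≤ m + K) (h2 : m ≤ 2 ^ (K + 1) + K) :
    0 < S m := by
  by_cases h : m < 2 ^ (K + 1)
  · have hp : 2 ^ (K + 1) = 2 * 2 ^ K := by ring
    have hm : m = 2 ^ K + (m - 2 ^ K) := by omega
    have hi : m - 2 ^ K < 2 ^ K := by omega
    rw [hm, S_pow_add hi]
    have h3 : ((m - 2 ^ K : ℕ) : ℤ) = (m : ℤ) - 2 ^ K := by
      push_cast [Nat.cast_sub (show 2 ^ K ≤ m by omega)]; ring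
    have h1' : ((2 : ℤ) ^ (K + 1)) ≤ m + K := by exact_mod_cast h1
    have hp' : (2 : ℤ) ^ (K + 1) = 2 * 2 ^ K := by ring
    have h4 : min (((m - 2 ^ K : ℕ) : ℤ)) ((2 : ℤ) ^ K - 1 - ((m - 2 ^ K : ℕ) : ℤ)) ≤
        (2 : ℤ) ^ K - 1 - ((m - 2 ^ K : ℕ) : ℤ) := min_le_right _ _
    rw [h3] at h4 ⊢
    linarith
  · have hm : m = 2 ^ (K + 1) + (m - 2 ^ (K + 1)) := by omega
    have hp : 2 ^ (K + 1) = 2 * 2 ^ K := by ring
    have hi : m - 2 ^ (K + 1) < 2 ^ (K + 1) := by omega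
    rw [hm, S_pow_add hi]
    have h3 : ((m - 2 ^ (K + 1) : ℕ) : ℤ) = (m : ℤ) - 2 ^ (K + 1) := by
      push_cast [Nat.cast_sub (show 2 ^ (K + 1) ≤ m by omega)]; ring
    have h2' : (m : ℤ) ≤ 2 ^ (K + 1) + K := by exact_mod_cast h2
    have h4 : min (((m - 2 ^ (K + 1) : ℕ) : ℤ))
        ((2 : ℤ) ^ (K + 1) - 1 - ((m - 2 ^ (K + 1) : ℕ) : ℤ)) ≤
        ((m - 2 ^ (K + 1) : ℕ) : ℤ) := min_le_left _ _
    rw [h3] at h4 ⊢
    push_cast
    linarith

/-- Among `m` and `m + 2K + 5`, where `2^K ≤ m < 2^(K+1)` and `K` is large, at least one has a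
nonpositive partial sum. -/
theorem S_nonpos {K i : ℕ} (hi : i < 2 ^ K) (hK : 5 * K + 10 < 2 ^ K) :
    S (2 ^ K + i) ≤ 0 ∨ S (2 ^ K + i + (2 * K + 5)) ≤ 0 := by
  have hp : 2 ^ (K + 1) = 2 * 2 ^ K := by ring
  by_cases h1 : i ≤ K
  · right
    have : 2 ^ K + i + (2 * K + 5) = 2 ^ K + (i + (2 * K + 5)) := by ring
    rw [this, S_pow_add (by omega)]
    have h2 : (K : ℤ) + 1 ≤ min (((i + (2 * K + 5) : ℕ)) : ℤ)
        ((2 : ℤ) ^ K - 1 - ((i + (2 * K + 5) : ℕ) : ℤ)) := by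
      apply le_min
      · push_cast; have : (0 : ℤ) ≤ i := by positivity
        have : (0 : ℤ) ≤ K := by positivity
        linarith
      · have h3 : K + 1 + 1 + (i + (2 * K + 5)) ≤ 2 ^ K := by omega
        have h3' : ((K + 1 + 1 + (i + (2 * K + 5)) : ℕ) : ℤ) ≤ 2 ^ K := by exact_mod_cast h3
        push_cast at h3' ⊢
        linarith
    linarith
  · by_cases h2 : i + K + 2 ≤ 2 ^ K
    · left
      rw [S_pow_add hi]
      have h3 : (K : ℤ) + 1 ≤ min (i : ℤ) ((2 : ℤ) ^ K - 1 - (i : ℤ)) := by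
        apply le_min
        · have : K + 1 ≤ i := by omega
          exact_mod_cast this
        · have h3' : ((i + K + 2 : ℕ) : ℤ) ≤ 2 ^ K := by exact_mod_cast h2
          push_cast at h3'
          linarith
      linarith
    · right
      have h4 : 2 ^ K + i + (2 * K + 5) = 2 ^ (K + 1) + (i + (2 * K + 5) - 2 ^ K) := by omega
      have h5 : i + (2 * K + 5) - 2 ^ K < 2 ^ (K + 1) := by omega
      rw [h4, S_pow_add h5]
      have h6 : ((K + 1 : ℕ) : ℤ) + 1 ≤ min (((i + (2 * K + 5) - 2 ^ K : ℕ)) : ℤ)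
          ((2 : ℤ) ^ (K + 1) - 1 - ((i + (2 * K + 5) - 2 ^ K : ℕ) : ℤ)) := by
        apply le_min
        · have : K + 1 + 1 ≤ i + (2 * K + 5) - 2 ^ K := by omega
          exact_mod_cast this
        · have h7 : K + 1 + 1 + 1 + (i + (2 * K + 5) - 2 ^ K) ≤ 2 ^ (K + 1) := by omega
          have h7' : ((K + 1 + 1 + 1 + (i + (2 * K + 5) - 2 ^ K) : ℕ) : ℤ) ≤ 2 ^ (K + 1) := by
            exact_mod_cast h7
          push_cast at h7' ⊢
          linarith
      linarith

theorem sign_H1 (k : ℕ) (hk : 2 ≤ k) (e : ℕ) :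
    ∃ n : ℕ, 1 ≤ n ∧ ∀ j < k ^ e, (r coef (k ^ e * n + j)).sign = 1 := by
  set q := k ^ e with hq
  have hqpos : 0 < q := by positivity
  -- all r values are positive for indices in [2·2^(K+1) - 2K, 2·2^(K+1) + 2K], K = q
  set X := 2 * 2 ^ (q + 1) - 2 * q with hX
  have hKlt : q < 2 ^ q := Nat.lt_two_pow_self
  have hp : 2 ^ (q + 1) = 2 * 2 ^ q := by ring
  have hXq : q ≤ X := by omega
  refine ⟨X / q + 1, Nat.le_add_left 1 _, ?_⟩
  intro j hj
  have hdiv : X / q * q ≤ X := Nat.div_mul_le_self X q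
  have hdiv2 : X < (X / q + 1) * q := by
    have := Nat.lt_div_mul_add (a := X) hqpos
    rw [add_mul, one_mul]; exact this
  have hlo : X ≤ q * (X / q + 1) + j := by
    rw [mul_comm q]; omega
  have hhi : q * (X / q + 1) + j < X + 2 * q := by
    have : q * (X / q + 1) = X / q * q + q := by ring
    omega
  set N := q * (X / q + 1) + j with hN
  rcases Nat.even_or_odd' N with ⟨m, hm | hm⟩
  · rw [hm, (r_coef m).1]
    apply Int.sign_eq_one_of_pos
    exact S_pos hKlt (by omega) (by omega)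
  · rw [hm, (r_coef m).2]; rfl

theorem exists_large (c : ℕ) : ∃ T : ℕ, ∀ K, T ≤ K → c * (5 * K + 10) < 2 ^ K := by
  have h : Filter.Tendsto (fun K : ℕ => ((c : ℝ) * (5 * K + 10)) / 2 ^ K) Filter.atTop (nhds 0) := by
    have h1 := tendsto_pow_const_div_const_pow_of_one_lt 1 (show (1 : ℝ) < 2 by norm_num)
    have h2 := tendsto_pow_const_div_const_pow_of_one_lt 0 (show (1 : ℝ) < 2 by norm_num)
    have h3 := (h1.const_mul (5 * (c : ℝ))).add (h2.const_mul (10 * (c : ℝ)))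
    simp only [mul_zero, add_zero, pow_one, pow_zero] at h3
    refine h3.congr (fun K => ?_)
    ring
  have h4 := (h.eventually (gt_mem_nhds (show (0 : ℝ) < 1 by norm_num)))
  obtain ⟨T, hT⟩ := Filter.eventually_atTop.mp h4
  refine ⟨T, fun K hK => ?_⟩
  have h5 := hT K hK
  rw [div_lt_one (by positivity)] at h5
  exact_mod_cast h5

theorem sign_H2 (k : ℕ) (hk : 2 ≤ k) (n : ℕ) (hn : 1 ≤ n) :
    ∃ E : ℕ, ∀ e, E ≤ e → ∃ j < k ^ e, (r coef (k ^ e * n + j)).sign ≠ 1 := by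
  obtain ⟨T, hT⟩ := exists_large (4 * n)
  refine ⟨T + 2, fun e he => ?_⟩
  set q := k ^ e with hq
  have hq2 : 2 ^ (T + 2) ≤ q := by
    calc 2 ^ (T + 2) ≤ 2 ^ e := Nat.pow_le_pow_right (by norm_num) he
      _ ≤ k ^ e := Nat.pow_le_pow_left hk e
  have hqn : q ≤ q * n := Nat.le_mul_of_pos_right _ hn
  -- the starting point in the half scale
  set m1 := (q * n + 1) / 2 with hm1
  have hpT : 2 ^ (T + 2) = 2 * 2 ^ (T + 1) := by ring
  have hm1T : 2 ^ (T + 1) ≤ m1 := by omega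
  have hm1ne : m1 ≠ 0 := by have := Nat.one_le_two_pow (n := T + 1); omega
  obtain ⟨K, i, hi, hmK⟩ := exists_repr hm1ne
  have hKT : T ≤ K := by
    by_contra hcon
    have h1 : K + 1 ≤ T + 1 := by omega
    have h2 : 2 ^ (K + 1) ≤ 2 ^ (T + 1) := Nat.pow_le_pow_right (by norm_num) h1
    rw [pow_succ] at h2
    omega
  have hKlarge := hT K hKT
  have hK5 : 5 * K + 10 < 2 ^ K := by
    have : 5 * K + 10 ≤ 4 * n * (5 * K + 10) := Nat.le_mul_of_pos_left _ (by omega)
    omega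
  -- the length of the interval is large
  have hlen : 2 * (2 * K + 5) + 2 ≤ q := by
    have h1 : 2 ^ K ≤ m1 := by omega
    have h2 : 2 * 2 ^ K ≤ q * n + 1 := by omega
    by_contra hcon
    have h3 : q ≤ 4 * K + 11 := by omega
    have h4 : q * n ≤ (4 * K + 11) * n := Nat.mul_le_mul_right _ h3
    have h5 : 4 * n * (5 * K + 10) = (20 * K + 40) * n := by ring
    have h6 : (4 * K + 11) * n + 1 ≤ (20 * K + 40) * n := by
      have : (20 * K + 40) * n = (4 * K + 11) * n + (16 * K + 29) * n := by ring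
      rw [this]
      have : 1 ≤ (16 * K + 29) * n := Nat.mul_pos (by omega) hn
      omega
    omega
  have hbounds : q * n ≤ 2 * m1 ∧ 2 * m1 ≤ q * n + 1 := by omega
  rcases S_nonpos hi hK5 with h | h
  · refine ⟨2 * m1 - q * n, by omega, ?_⟩
    have h1 : q * n + (2 * m1 - q * n) = 2 * m1 := by omega
    rw [h1, (r_coef m1).1, hmK]
    intro h2
    have := Int.sign_eq_one_iff_pos.mp h2
    omega
  · refine ⟨2 * (m1 + (2 * K + 5)) - q * n, by omega, ?_⟩
    have h1 : q * n + (2 * (m1 + (2 * K + 5)) - q * n) = 2 * (m1 + (2 * K + 5)) := by omega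
    rw [h1, (r_coef _).1, hmK]
    intro h2
    have := Int.sign_eq_one_iff_pos.mp h2
    omega

/-- There is a `2`-automatic integer sequence `a` (with values in a finite set) such that the
signs of the sequence `r 0 = 0`, `r 1 = 1`, `r n = a n * r (n-1) + r (n-2)` do not form a
`k`-automatic sequence for any `k ≥ 2`. -/
theorem result :
    ∃ a : ℕ → ℤ, IsAutomatic 2 a ∧ ∀ k : ℕ, 2 ≤ k → ¬ IsAutomatic k (fun n => (r a n).sign) :=
  ⟨coef, coef_automatic, fun k hk => not_automatic k _ 1 (sign_H1 k hk) (sign_H2 k hk)⟩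

end Pool.Agent.Results.MP_c55a01_nt.SignNotAutomatic
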